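import Pool.Agent.Lib.ALLY_h22.Ift
import Pool.Agent.Lib.ALLY.It2
import Pool.Agent.Lib.ALLY.It1
import Pool.Agent.Lib.ALLH_h95.Ev

/-!
# The Tschirnhausen transformation in the Hensel closure of a rational frame
-/

set_option autoImplicit false

namespace Pool.Agent.ALLY

open Pool.Agent.TAO (OVal VPos Ctx0 CtxR)

universe u w

variable {k Ω : Type u} [Field k] [Field Ω] [Algebra k Ω] {𝕂 : Type w} [Field 𝕂] [LinearOrder 𝕂]
  [IsStrictOrderedRing 𝕂] {v : OVal 𝕂 Ω} {n d : ℕ}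

theorem factorial_unit (p : ℕ) [hp : Fact p.Prime] [CharP k p] (h : Ctx0 k v n) {m : ℕ}
    (hm : m < p) : (m.factorial : Ω) ≠ 0 ∧ v (m.factorial : Ω) = 0 := by
  have h1 : (m.factorial : k) ≠ 0 := by
    intro h0
    rw [CharP.cast_eq_zero_iff k p] at h0
    exact absurd ((Nat.Prime.dvd_factorial hp.out).1 h0) (not_le.2 hm)
  have h2 : (m.factorial : Ω) = algebraMap k Ω (m.factorial : k) := by rw [map_natCast]
  rw [h2]
  exact ⟨(_root_.map_ne_zero _).2 h1, h.triv _ h1⟩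

/-- A unit plus an element of positive value. -/
theorem unit_of_sub {a b : Ω} (hb : b ≠ 0) (hb' : v b = 0) (hab : VPos v (a - b)) :
    a ≠ 0 ∧ v a = 0 := by
  have := TAO.val_add_vpos hb hb' hab
  rwa [add_sub_cancel] at this

theorem tschirnhaus [IsAlgClosed Ω] (p : ℕ) [Fact p.Prime] [CharP k p] (h : Ctx0 k v n)
    (S : RD k v (d + 1)) (_ : ∃ γ ∈ S.Γ, 0 < γ) (htr : Transcendental S.low.K S.z) {f : Ω}
    {κ : 𝕂} {M : ℕ} (hf : S.ZForm f κ M) (hM : 0 < M) (hMp : M < p) :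
    ∃ ψ ∈ S.low.H, VPos v ψ ∧ S.z - ψ ≠ 0 ∧ ∃ a : ℕ → Ω, (∀ j, a j ∈ S.low.H) ∧ ∃ g ∈ S.H,
      f = S.χ κ * (∑ j ∈ Finset.range (M + 1), a j * (S.z - ψ) ^ j +
        (S.z - ψ) ^ (M + 1) * g) ∧
      a M ≠ 0 ∧ v (a M) = 0 ∧ (a (M - 1) ≠ 0 → 2 * v (S.z - ψ) ≤ v (a (M - 1))) := by
  classical
  obtain ⟨hκ, u, ⟨huH, hu0, huv⟩, e, he, hfe⟩ := hf
  obtain ⟨L, δ, hL, hlow, hz, h0, hH⟩ := S.exists_dz htr
  have hzH : S.z ∈ S.H := S.z_mem_H
  have hzpos : VPos v S.z := fun _ => S.y_pos _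
  have heH := he.mem h
  have hge : ∀ x ∈ S.H, v.Ge 0 x := S.nonneg h
  obtain ⟨hfa0, hfa⟩ := factorial_unit (Ω := Ω) (v := v) p h hMp
  obtain ⟨hfb0, hfb⟩ := factorial_unit (Ω := Ω) (v := v) p h (lt_of_le_of_lt (Nat.sub_le M 1) hMp)
  set f₁ : Ω := u * S.z ^ M + e with hf₁
  have hf₁H : f₁ ∈ S.H := S.H.add_mem (S.H.mul_mem huH (S.H.pow_mem hzH M)) heH.1
  set fL : L := ⟨f₁, hL _ hf₁H⟩ with hfL
  -- iterates stay in `S.H`
  have hit : ∀ j, ((δ^[j] fL : L) : Ω) ∈ S.H := by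
    intro j
    induction j with
    | zero => exact hf₁H
    | succ j ih =>
      rw [Function.iterate_succ_apply']
      exact hH _ ih
  -- `z₁`
  set z₁L : L := δ^[M - 1] fL with hz₁L
  set z₁ : Ω := (z₁L : Ω) with hz₁
  have hz₁H : z₁ ∈ S.H := hit (M - 1)
  have hz₁pos : VPos v z₁ := by
    obtain ⟨g, hg, e', he', h1⟩ := iter_zform S L δ hL hz h0 hH huH he fL rfl (M - 1)
      (Nat.sub_le M 1)
    rw [hz₁, hz₁L, h1]
    have h2 : M - (M - 1) = 1 := by omega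
    rw [h2, pow_one]
    have h3 : v.Ge 0 ((M.descFactorial (M - 1) : Ω) * u) :=
      hge _ (S.H.mul_mem (natCast_mem _ _) huH)
    have h4 : VPos v (S.z ^ (1 + 1) * g) := by
      rw [pow_succ, pow_one, mul_assoc]
      exact hzpos.mul (hge _ (S.H.mul_mem hzH hg))
    exact ((VPos.mul' h3 hzpos).add h4).add (he'.mem h).2
  have hsucc : δ z₁L = δ^[M] fL := by
    rw [hz₁L, ← Function.iterate_succ_apply' (⇑δ)]
    congr 1
    omega
  have hd1 : ((δ z₁L : L) : Ω) ≠ 0 ∧ v ((δ z₁L : L) : Ω) = 0 := by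
    obtain ⟨g, hg, e', he', h1⟩ := iter_zform S L δ hL hz h0 hH huH he fL rfl M le_rfl
    rw [hsucc, h1, Nat.sub_self, pow_zero, mul_one, Nat.descFactorial_self, zero_add, pow_one]
    refine unit_of_sub (mul_ne_zero hfa0 hu0) (by rw [v.map_mul hfa0 hu0, hfa, huv, add_zero]) ?_
    have h5 : (M.factorial : Ω) * u + S.z * g + e' - (M.factorial : Ω) * u = S.z * g + e' := by
      ring
    rw [h5]
    exact (hzpos.mul (hge _ hg)).add (he'.mem h).2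
  -- the implicit function theorem
  set A' : Subalgebra k Ω := Algebra.adjoin k ((S.low.H : Set Ω) ∪ {z₁}) with hA'
  have hA'H : A' ≤ S.H := S.adjoin_le_H hz₁H
  have hzA' : S.z ∈ Hz v A' := by
    refine ALLY22.ift h S L δ hL hz h0 hz₁H ?_ (A' := A')
      (fun x hx => Algebra.subset_adjoin (Or.inl hx)) (Algebra.subset_adjoin (Or.inr rfl))
      (fun x hx => hge x (hA'H hx))
    intro e he
    have : e = z₁L := Subtype.ext he
    rw [this]
    exact hd1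
  have hHeq : S.H = Hz v A' := S.H_eq_adjoin hz₁H hzA'
  have hlow0 : ∀ x ∈ S.low.H, v.Ge 0 x := S.low.nonneg h
  have hlowcl : Hz v S.low.H = S.low.H := hz_of_hcl S.low.hcl
  obtain ⟨a₀, ha₀, g₀, hg₀, h6⟩ := ev_pow h S.low.H hlow0 hz₁pos (ψ := 0) (Subalgebra.zero_mem _)
    TAO.VPos.zero 1 hzA'
  rw [Finset.sum_range_one, pow_zero, mul_one, sub_zero, pow_one] at h6
  set ψ : Ω := a₀ 0 with hψ
  have hψl : ψ ∈ S.low.H := by
    have := ha₀ 0
    rwa [hlowcl] at this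
  have hg₀H : g₀ ∈ S.H := by
    rw [hHeq]
    exact hg₀
  have hX : S.z - ψ = z₁ * g₀ := by rw [h6]; ring
  have hψpos : VPos v ψ := by
    have : ψ = S.z - z₁ * g₀ := by rw [← hX]; ring
    rw [this]
    exact hzpos.sub (hz₁pos.mul (hge _ hg₀H))
  have hXH : S.z - ψ ∈ S.H := S.H.sub_mem hzH (S.low_H_le hψl)
  set XL : L := ⟨S.z, hL _ hzH⟩ - ⟨ψ, hlow _ hψl⟩ with hXL
  have hXLc : (XL : Ω) = S.z - ψ := rfl
  have hδX : δ XL = 1 := by
    rw [hXL, map_sub, hz _ rfl, h0 _ hψl, sub_zero]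
  have hXne : S.z - ψ ≠ 0 := by
    intro hx
    have : XL = 0 := Subtype.ext hx
    rw [this, map_zero] at hδX
    exact zero_ne_one hδX
  have hXpos : VPos v (S.z - ψ) := hzpos.sub hψpos
  -- `g₀` is a unit
  set gL : L := ⟨g₀, hL _ hg₀H⟩ with hgL
  have hgu : g₀ ≠ 0 ∧ v g₀ = 0 := by
    have h7 : XL = z₁L * gL := Subtype.ext hX
    have h8 := congrArg δ h7
    rw [hδX, Derivation.leibniz, smul_eq_mul, smul_eq_mul] at h8
    have h9 : (1 : Ω) = z₁ * ((δ gL : L) : Ω) + g₀ * ((δ z₁L : L) : Ω) :=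
      congrArg (Subtype.val : L → Ω) h8
    have h10 : g₀ * ((δ z₁L : L) : Ω) ≠ 0 ∧ v (g₀ * ((δ z₁L : L) : Ω)) = 0 := by
      refine unit_of_sub (b := 1) one_ne_zero v.map_one ?_
      have : g₀ * ((δ z₁L : L) : Ω) - 1 = -(z₁ * ((δ gL : L) : Ω)) := by rw [h9]; ring
      rw [this]
      exact (hz₁pos.mul (hge _ (hH gL hg₀H))).neg
    have h11 := left_ne_zero_of_mul h10.1
    refine ⟨h11, ?_⟩
    have h12 := h10.2
    rw [v.map_mul h11 hd1.1, hd1.2, add_zero] at h12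
    exact h12
  have hginv : g₀⁻¹ ∈ S.H := S.hcl.inv _ hg₀H hgu.1 hgu.2
  have hz₁X : z₁ = (S.z - ψ) * g₀⁻¹ := by
    rw [hX, mul_assoc, mul_inv_cancel₀ hgu.1, mul_one]
  -- the expansion
  obtain ⟨a, ha, g, hg, h13⟩ := ev_pow h S.low.H hlow0 hzpos (ψ := ψ)
    (by rw [hlowcl]; exact hψl) hψpos (M + 1) (f := f₁) (by rw [← S.H_eq_adjoin_z]; exact hf₁H)
  rw [← S.H_eq_adjoin_z] at hg
  have ha' : ∀ j, a j ∈ S.low.H := fun j => by
    have := ha j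
    rwa [hlowcl] at this
  refine ⟨ψ, hψl, hψpos, hXne, a, ha', g, hg, by rw [hfe, h13], ?_⟩
  have hexp := iter_exp S L δ hL hz h0 hH XL hXH hδX a ha' hg fL h13
  have haM : a M ≠ 0 ∧ v (a M) = 0 := by
    obtain ⟨w, hw, h14⟩ := hexp M le_rfl
    rw [← hsucc] at h14
    have h15 : (M.factorial : Ω) * a M ≠ 0 ∧ v ((M.factorial : Ω) * a M) = 0 := by
      refine unit_of_sub hd1.1 hd1.2 ?_
      have : (M.factorial : Ω) * a M - ((δ z₁L : L) : Ω) = -((S.z - ψ) * w) := by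
        rw [h14, hXLc]; ring
      rw [this]
      exact (hXpos.mul (hge _ hw)).neg
    have h16 := right_ne_zero_of_mul h15.1
    refine ⟨h16, ?_⟩
    have h17 := h15.2
    rw [v.map_mul hfa0 h16, hfa, zero_add] at h17
    exact h17
  refine ⟨haM.1, haM.2, ?_⟩
  intro hne
  obtain ⟨w, hw, h14⟩ := hexp (M - 1) (Nat.sub_le M 1)
  have h18 : a (M - 1) = (S.z - ψ) * ((g₀⁻¹ - w) * ((M - 1).factorial : Ω)⁻¹) := by
    have h19 : ((M - 1).factorial : Ω) * a (M - 1) = (S.z - ψ) * (g₀⁻¹ - w) := by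
      have h20 : z₁ = ((M - 1).factorial : Ω) * a (M - 1) + (S.z - ψ) * w := h14
      rw [mul_sub, ← hz₁X, h20]; ring
    rw [← mul_assoc, ← h19]
    field_simp
  set w' : Ω := (g₀⁻¹ - w) * ((M - 1).factorial : Ω)⁻¹ with hw'
  have hw'H : w' ∈ S.H := S.H.mul_mem (S.H.sub_mem hginv hw)
    (S.hcl.inv _ (natCast_mem _ _) hfb0 hfb)
  set wL : L := ⟨w', hL _ hw'H⟩ with hwL
  have h21 : (⟨a (M - 1), hlow _ (ha' _)⟩ : L) = XL * wL := Subtype.ext h18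
  have h22 := congrArg δ h21
  rw [h0 _ (ha' _), Derivation.leibniz, hδX, smul_eq_mul, smul_eq_mul, mul_one] at h22
  have h23 : (0 : Ω) = (S.z - ψ) * ((δ wL : L) : Ω) + w' := congrArg (Subtype.val : L → Ω) h22
  have h24 : w' = -((S.z - ψ) * ((δ wL : L) : Ω)) := by
    linear_combination - h23
  have h25 : a (M - 1) = -((S.z - ψ) * ((S.z - ψ) * ((δ wL : L) : Ω))) := by
    rw [h18, h24]; ring
  rw [h25] at hne ⊢
  have h26 : (S.z - ψ) * ((S.z - ψ) * ((δ wL : L) : Ω)) ≠ 0 := neg_ne_zero.1 hne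
  have h27 : ((δ wL : L) : Ω) ≠ 0 := right_ne_zero_of_mul (right_ne_zero_of_mul h26)
  rw [v.map_neg _ h26, v.map_mul hXne (mul_ne_zero hXne h27), v.map_mul hXne h27]
  have := hge _ (hH wL hw'H) h27
  linarith

end Pool.Agent.ALLY
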