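import Pool.Agent.Lib.ALLY.Defs

/-!
# Etale algebras with values in the valuation ring: the standard form
-/

set_option autoImplicit false

open Polynomial

namespace Pool.Agent.ALLY22

open Pool.Agent.TAO

universe u w

variable {k Ω : Type u} [Field k] [Field Ω] [Algebra k Ω] {𝕂 : Type w} [Field 𝕂] [LinearOrder 𝕂]
  [IsStrictOrderedRing 𝕂] {v : OVal 𝕂 Ω}

/-- An element of a ring whose inverse and itself have values `≥ 0`. -/
theorem val_unit {x y : Ω} (hx : v.Ge 0 x) (hy : v.Ge 0 y) (h : x * y = 1) : x ≠ 0 ∧ v x = 0 := by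
  have hx0 : x ≠ 0 := left_ne_zero_of_mul_eq_one h
  have hy0 : y ≠ 0 := right_ne_zero_of_mul_eq_one h
  have h1 := v.map_mul hx0 hy0
  rw [h, v.map_one] at h1
  have h2 := hx hx0
  have h3 := hy hy0
  exact ⟨hx0, by linarith⟩

theorem val_isUnit {C : Type*} [CommRing C] (ψ : C →+* Ω) (hψ : ∀ c, v.Ge 0 (ψ c)) {c : C}
    (hc : IsUnit c) : ψ c ≠ 0 ∧ v (ψ c) = 0 := by
  obtain ⟨u, rfl⟩ := hc
  refine val_unit (hψ _) (hψ ((u⁻¹ : Cˣ) : C)) ?_
  rw [← map_mul, Units.mul_inv, map_one]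

/-- The centre of `v` on `B`. -/
def cen {B : Type*} [CommRing B] (v : OVal 𝕂 Ω) (φ : B →+* Ω) (hφ : ∀ b, v.Ge 0 (φ b)) : Ideal B where
  carrier := {b | VPos v (φ b)}
  add_mem' := fun {a b} ha hb => by
    change VPos v (φ (a + b))
    rw [map_add]
    exact ha.add hb
  zero_mem' := by
    change VPos v (φ 0)
    rw [map_zero]
    exact VPos.zero
  smul_mem' := fun c {a} ha => by
    change VPos v (φ (c • a))
    rw [smul_eq_mul, map_mul]
    exact VPos.mul' (hφ c) ha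

theorem mem_cen {B : Type*} [CommRing B] {φ : B →+* Ω} {hφ : ∀ b, v.Ge 0 (φ b)} {b : B} :
    b ∈ cen v φ hφ ↔ VPos v (φ b) := Iff.rfl

theorem not_mem_cen {B : Type*} [CommRing B] {φ : B →+* Ω} {hφ : ∀ b, v.Ge 0 (φ b)} {b : B} :
    b ∉ cen v φ hφ ↔ φ b ≠ 0 ∧ v (φ b) = 0 := by
  rw [mem_cen]
  unfold VPos
  push Not
  constructor
  · rintro ⟨h1, h2⟩
    exact ⟨h1, le_antisymm h2 (hφ b h1)⟩
  · rintro ⟨h1, h2⟩
    exact ⟨h1, h2.le⟩

theorem cen_prime {B : Type*} [CommRing B] (φ : B →+* Ω) (hφ : ∀ b, v.Ge 0 (φ b)) :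
    (cen v φ hφ).IsPrime := by
  rw [Ideal.isPrime_iff]
  constructor
  · rw [Ideal.ne_top_iff_one, not_mem_cen, map_one]
    exact ⟨one_ne_zero, v.map_one⟩
  · intro a b hab
    by_contra hcon
    push Not at hcon
    obtain ⟨h1, h2⟩ := hcon
    rw [not_mem_cen] at h1 h2
    have h3 : a * b ∉ cen v φ hφ := by
      rw [not_mem_cen, map_mul]
      exact ⟨mul_ne_zero h1.1 h2.1, by rw [v.map_mul h1.1 h2.1, h1.2, h2.2, add_zero]⟩
    exact h3 hab

/-- The extension of `φ` to `B[1/f]`. -/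
theorem exists_away {A : Subalgebra k Ω} {B : Type*} [CommRing B] [Algebra A B] (φ : B →ₐ[A] Ω)
    (hφ : ∀ b, v.Ge 0 (φ b)) {f : B} (hf : φ f ≠ 0) (hf' : v (φ f) = 0) :
    ∃ ψ : Localization.Away f →ₐ[A] Ω, (∀ b, ψ (algebraMap B _ b) = φ b) ∧ ∀ c, v.Ge 0 (ψ c) := by
  have hu : IsUnit ((φ : B →+* Ω) f) := isUnit_iff_ne_zero.2 hf
  let ψ₀ : Localization.Away f →+* Ω := IsLocalization.Away.lift f hu
  have h1 : ∀ b, ψ₀ (algebraMap B _ b) = φ b := fun b => IsLocalization.Away.lift_eq f hu b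
  refine ⟨⟨ψ₀, ?_⟩, h1, ?_⟩
  · intro a
    change ψ₀ (algebraMap A _ a) = _
    rw [IsScalarTower.algebraMap_apply A B (Localization.Away f), h1]
    exact φ.commutes a
  · intro c
    obtain ⟨b, s, rfl⟩ := IsLocalization.exists_mk'_eq (Submonoid.powers f) c
    obtain ⟨n, hn⟩ := s.2
    change v.Ge 0 (ψ₀ _)
    have h2 : ψ₀ (IsLocalization.mk' (Localization.Away f) b s) * (φ f) ^ n = φ b := by
      rw [← h1 b, ← h1 f, ← map_pow, ← map_mul]
      congr 1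
      rw [← map_pow, show f ^ n = (s : B) from hn]
      exact IsLocalization.mk'_spec _ b s
    have h3 : ψ₀ (IsLocalization.mk' (Localization.Away f) b s) = φ b * ((φ f) ^ n)⁻¹ := by
      rw [← h2, mul_assoc, mul_inv_cancel₀ (pow_ne_zero n hf), mul_one]
    rw [h3]
    have h4 : v.Ge 0 ((φ f) ^ n)⁻¹ := by
      intro _
      rw [v.map_inv (pow_ne_zero n hf), v.map_pow hf, hf', mul_zero, neg_zero]
    have := OVal.Ge.mul (hφ b) h4
    rwa [add_zero] at this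

/-- The standard form of the elements of the image of an etale algebra. -/
theorem et_std {A : Subalgebra k Ω} {B : Type u} [CommRing B] [Algebra A B] [Algebra.Etale A B]
    (φ : B →ₐ[A] Ω) (hφ : ∀ b, v.Ge 0 (φ b)) (b : B) :
    ∃ (θ : Ω) (P a g : Polynomial A), P.Monic ∧ aeval θ P = 0 ∧ v.Ge 0 θ ∧
      aeval θ (derivative P) ≠ 0 ∧ v (aeval θ (derivative P)) = 0 ∧
      aeval θ g ≠ 0 ∧ v (aeval θ g) = 0 ∧ φ b * aeval θ g = aeval θ a := by
  have hφ' : ∀ b, v.Ge 0 ((φ : B →+* Ω) b) := hφ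
  have hpr := cen_prime (v := v) (φ : B →+* Ω) hφ'
  obtain ⟨f, hfQ, hf⟩ := Algebra.IsEtaleAt.exists_isStandardEtale (R := A)
    (cen v (φ : B →+* Ω) hφ')
  obtain ⟨hf0, hf1⟩ := not_mem_cen.1 hfQ
  obtain ⟨ψ, hψ1, hψ2⟩ := exists_away (v := v) φ hφ hf0 hf1
  obtain ⟨S⟩ := hf.nonempty_standardEtalePresentation
  have hψ2' : ∀ c, v.Ge 0 ((ψ : Localization.Away f →+* Ω) c) := hψ2
  have hev : ∀ q : Polynomial A, aeval (ψ S.x) q = ψ (aeval S.x q) := fun q =>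
    aeval_algHom_apply ψ S.x q
  obtain ⟨p, n, hpn⟩ := S.exists_mul_aeval_x_g_pow_eq_aeval_x (algebraMap B _ b)
  have hg : ψ (aeval S.x S.P.g) ≠ 0 ∧ v (ψ (aeval S.x S.P.g)) = 0 :=
    val_isUnit (v := v) (ψ : Localization.Away f →+* Ω) hψ2' S.hasMap.2
  have hd : ψ (aeval S.x (derivative S.P.f)) ≠ 0 ∧ v (ψ (aeval S.x (derivative S.P.f))) = 0 :=
    val_isUnit (v := v) (ψ : Localization.Away f →+* Ω) hψ2' S.hasMap.isUnit_derivative_f
  refine ⟨ψ S.x, S.P.f, p, S.P.g ^ n, S.P.monic_f, ?_, hψ2 _, ?_, ?_, ?_, ?_, ?_⟩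
  · rw [hev, S.hasMap.1, map_zero]
  · rw [hev]; exact hd.1
  · rw [hev]; exact hd.2
  · rw [map_pow, hev]; exact pow_ne_zero n hg.1
  · rw [map_pow, hev, v.map_pow hg.1, hg.2, mul_zero]
  · rw [map_pow, hev, hev, ← hpn, map_mul, map_pow, hψ1]

end Pool.Agent.ALLY22
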