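import Pool.Agent.Lib.ALLY_h22.Pres
import Pool.Agent.Lib.ALLY.Gen
import Pool.Agent.Lib.ALLY.Basic
import Pool.Agent.Lib.ALLH_h95.Der

/-!
# The implicit function theorem in the Hensel closure
-/

set_option autoImplicit false

open MvPolynomial

namespace Pool.Agent.ALLY22

open Pool.Agent.TAO
open Pool.Agent.ALLY

universe u w

section Chain

/-- The chain rule for a derivation which kills the coefficients. -/
theorem chain_two {R L : Type*} [CommRing R] [Field L] {k : Type*} [Field k] [Algebra k L]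
    (δ : Derivation k L L) (ι : R →+* L) (hι : ∀ r, δ (ι r) = 0) (a : Fin 2 → L)
    (Q : MvPolynomial (Fin 2) R) :
    δ (eval₂ ι a Q) = eval₂ ι a (pderiv 0 Q) * δ (a 0) + eval₂ ι a (pderiv 1 Q) * δ (a 1) := by
  induction Q using MvPolynomial.induction_on with
  | C c => simp [hι]
  | add f g hf hg =>
    simp only [eval₂_add, map_add, hf, hg]
    ring
  | mul_X f i hf =>
    simp only [eval₂_mul, eval₂_X, Derivation.leibniz, hf, smul_eq_mul, eval₂_add, eval₂_mul]
    fin_cases i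
    · simp only [Fin.zero_eta, Fin.isValue, pderiv_X_self, eval₂_one, mul_one]
      rw [pderiv_X_of_ne (by decide : (0 : Fin 2) ≠ 1)]
      simp only [eval₂_zero, mul_zero, zero_add]
      ring
    · simp only [Fin.mk_one, Fin.isValue, pderiv_X_self, eval₂_one, mul_one]
      rw [pderiv_X_of_ne (by decide : (1 : Fin 2) ≠ 0)]
      simp only [eval₂_zero, mul_zero, zero_add]
      ring

end Chain

variable {k Ω : Type u} [Field k] [Field Ω] [Algebra k Ω] {𝕂 : Type w} [Field 𝕂] [LinearOrder 𝕂]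
  [IsStrictOrderedRing 𝕂] {v : OVal 𝕂 Ω}

section Lift

variable {d : ℕ}

/-- The elements of `S.P` are polynomials in `z` over `S.low.H`. -/
theorem lift_c (S : RD k v (d + 1)) {c : Ω} (hc : c ∈ S.P) :
    ∃ C : MvPolynomial (Fin 2) S.low.H, pderiv 1 C = 0 ∧ ∀ t : Ω, aeval ![S.z, t] C = c := by
  unfold RD.P at hc
  induction hc using Algebra.adjoin_induction with
  | mem x hx =>
    have hlow : ∀ x : Ω, x ∈ S.low.H → ∃ C : MvPolynomial (Fin 2) S.low.H, pderiv 1 C = 0 ∧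
        ∀ t : Ω, aeval ![S.z, t] C = x := by
      intro x hx
      refine ⟨MvPolynomial.C ⟨x, hx⟩, pderiv_C, fun t => ?_⟩
      rw [aeval_C]
      rfl
    rcases hx with ⟨γ, ⟨h1, h2⟩, rfl⟩ | ⟨i, rfl⟩
    · exact hlow _ (S.low.χ_mem_H h1 h2)
    · induction i using Fin.lastCases with
      | last =>
        refine ⟨X 0, pderiv_X_of_ne (by decide : (0 : Fin 2) ≠ 1), fun t => ?_⟩
        rw [aeval_X]
        rfl
      | cast i => exact hlow _ (S.low.y_mem_H i)
  | algebraMap r =>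
    refine ⟨MvPolynomial.C (algebraMap k _ r), pderiv_C, fun t => ?_⟩
    rw [aeval_C]
    rfl
  | add x y _ _ hx hy =>
    obtain ⟨C, h1, h2⟩ := hx
    obtain ⟨C', h3, h4⟩ := hy
    exact ⟨C + C', by rw [map_add, h1, h3, add_zero], fun t => by rw [map_add, h2, h4]⟩
  | mul x y _ _ hx hy =>
    obtain ⟨C, h1, h2⟩ := hx
    obtain ⟨C', h3, h4⟩ := hy
    refine ⟨C * C', ?_, fun t => by rw [map_mul, h2, h4]⟩
    rw [Derivation.leibniz, h1, h3, smul_zero, smul_zero, add_zero]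

theorem lift_q (S : RD k v (d + 1)) (q : Polynomial S.P) :
    ∃ Q : MvPolynomial (Fin 2) S.low.H, ∀ t : Ω, aeval ![S.z, t] Q = Polynomial.aeval t q ∧
      aeval ![S.z, t] (pderiv 1 Q) = Polynomial.aeval t (Polynomial.derivative q) := by
  induction q using Polynomial.induction_on' with
  | add p q hp hq =>
    obtain ⟨P, h1⟩ := hp
    obtain ⟨Q, h2⟩ := hq
    refine ⟨P + Q, fun t => ⟨?_, ?_⟩⟩
    · rw [map_add, map_add, (h1 t).1, (h2 t).1]
    · rw [map_add, map_add, (h1 t).2, (h2 t).2, Polynomial.derivative_add, map_add]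
  | monomial m c =>
    obtain ⟨C, h1, h2⟩ := lift_c S c.2
    refine ⟨C * X 1 ^ m, fun t => ⟨?_, ?_⟩⟩
    · rw [map_mul, h2, map_pow, aeval_X, Polynomial.aeval_monomial]
      rfl
    · rw [Derivation.leibniz, h1, smul_zero, add_zero, Derivation.leibniz_pow, pderiv_X_self,
        smul_eq_mul, map_mul, h2, Polynomial.derivative_monomial, Polynomial.aeval_monomial]
      simp only [smul_eq_mul, nsmul_eq_mul, mul_one, map_mul, map_pow, aeval_X, map_natCast]
      change (c : Ω) * ((m : Ω) * t ^ (m - 1)) = (c : Ω) * (m : Ω) * t ^ (m - 1)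
      ring

end Lift

section Main

variable {d n : ℕ}

/-- The implicit function theorem: if `δ z₁` is a unit then `z` lies in the Hensel closure of every
algebra which contains `S.low.H` and `z₁`. -/
theorem ift (h : Ctx0 k v n) (S : RD k v (d + 1)) (L : IntermediateField k Ω)
    (δ : Derivation k L L) (hL : ∀ f ∈ S.H, f ∈ L) (hz : ∀ e : L, (e : Ω) = S.z → δ e = 1)
    (h0 : ∀ e : L, (e : Ω) ∈ S.low.H → δ e = 0) {z₁ : Ω} (hz₁ : z₁ ∈ S.H)
    (hd : ∀ e : L, (e : Ω) = z₁ → ((δ e : L) : Ω) ≠ 0 ∧ v ((δ e : L) : Ω) = 0)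
    {A' : Subalgebra k Ω} (hA' : S.low.H ≤ A') (hz₁' : z₁ ∈ A') (hA'0 : ∀ f ∈ A', v.Ge 0 f) :
    S.z ∈ Hz v A' := by
  classical
  have hP0 : ∀ f ∈ S.P, v.Ge 0 f := fun f hf => S.nonneg h f (S.P_le_H hf)
  obtain ⟨θ, P, a, g, hP, h1, h2, h3, h4, h5, h6, h7⟩ := hz_std hP0 hz₁
  have hθ : θ ∈ S.H := by
    refine S.hcl.root (P.map (algebraMap S.P Ω)) (hP.map _) ?_ θ h2 ?_ ?_ ?_
    · intro i
      rw [Polynomial.coeff_map]
      exact S.P_le_H (P.coeff i).2
    · rw [Polynomial.eval_map, ← Polynomial.aeval_def]; exact h1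
    · rw [Polynomial.derivative_map, Polynomial.eval_map, ← Polynomial.aeval_def]; exact h3
    · rw [Polynomial.derivative_map, Polynomial.eval_map, ← Polynomial.aeval_def]; exact h4
  have hzH : S.z ∈ S.H := S.y_mem_H (Fin.last d)
  have hlowH : ∀ x ∈ S.low.H, x ∈ L := fun x hx => hL x (S.low_H_le hx)
  obtain ⟨QP, hQP⟩ := lift_q S P
  obtain ⟨Qa, hQa⟩ := lift_q S a
  obtain ⟨Qg, hQg⟩ := lift_q S g
  set b : Fin 2 → Ω := ![S.z, θ] with hb
  -- the chain rule
  let ι : S.low.H →+* L :=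
    { toFun := fun x => ⟨x, hlowH _ x.2⟩
      map_one' := rfl
      map_mul' := fun _ _ => rfl
      map_zero' := rfl
      map_add' := fun _ _ => rfl }
  let bL : Fin 2 → L := ![⟨S.z, hL _ hzH⟩, ⟨θ, hL _ hθ⟩]
  have hbL : (fun i => ((bL i : L) : Ω)) = b := by
    funext i
    fin_cases i <;> rfl
  have hev : ∀ Q : MvPolynomial (Fin 2) S.low.H, ((eval₂ ι bL Q : L) : Ω) = aeval b Q := by
    intro Q
    have e1 : (algebraMap L Ω) (eval₂ ι bL Q) =
        eval₂ ((algebraMap L Ω).comp ι) (fun i => algebraMap L Ω (bL i)) Q :=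
      MvPolynomial.eval₂_comp_left (algebraMap L Ω) ι bL Q
    have e2 : (fun i => algebraMap L Ω (bL i)) = b := hbL
    rw [e2] at e1
    exact e1
  have hι : ∀ r, δ (ι r) = 0 := fun r => h0 _ r.2
  have hδz : δ (bL 0) = 1 := hz _ rfl
  set t : L := δ (bL 1) with ht
  have hch : ∀ Q : MvPolynomial (Fin 2) S.low.H,
      ((δ (eval₂ ι bL Q) : L) : Ω) = aeval b (pderiv 0 Q) + aeval b (pderiv 1 Q) * (t : Ω) := by
    intro Q
    rw [chain_two δ ι hι bL Q, hδz, mul_one, ← hev, ← hev]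
    rfl
  -- the relations
  have eP : aeval b QP = 0 := ((hQP θ).1).trans h1
  have ePL : eval₂ ι bL QP = 0 := Subtype.ext ((hev QP).trans eP)
  have r1 := hch QP
  rw [ePL, map_zero] at r1
  set z₁L : L := ⟨z₁, hL _ hz₁⟩ with hz₁L
  have eaL : z₁L * eval₂ ι bL Qg = eval₂ ι bL Qa := by
    refine Subtype.ext ?_
    have e3 : ((z₁L * eval₂ ι bL Qg : L) : Ω) = z₁ * ((eval₂ ι bL Qg : L) : Ω) := rfl
    rw [e3, hev, hev, (hQg θ).1, (hQa θ).1]
    exact h7
  have r2 : ((δ z₁L : L) : Ω) * aeval b Qg + z₁ * ((δ (eval₂ ι bL Qg) : L) : Ω) =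
      ((δ (eval₂ ι bL Qa) : L) : Ω) := by
    rw [← eaL, Derivation.leibniz]
    rw [← hev]
    change _ = (z₁ : Ω) * ((δ (eval₂ ι bL Qg) : L) : Ω) +
      ((eval₂ ι bL Qg : L) : Ω) * ((δ z₁L : L) : Ω)
    ring
  rw [hch, hch] at r2
  obtain ⟨hD0, hD1⟩ := hd z₁L rfl
  -- the system
  let inc : S.low.H →+* A' := (Subalgebra.inclusion hA').toRingHom
  have hmap : ∀ Q : MvPolynomial (Fin 2) S.low.H, aeval b (map inc Q) = aeval b Q := by
    intro Q
    rw [aeval_def, eval₂_map]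
    rfl
  let F : Fin 2 → MvPolynomial (Fin 2) A' :=
    ![map inc QP, map inc Qa - C ⟨z₁, hz₁'⟩ * map inc Qg]
  have hF0 : F 0 = map inc QP := rfl
  have hF1 : F 1 = map inc Qa - C ⟨z₁, hz₁'⟩ * map inc Qg := rfl
  have hpd : ∀ (i : Fin 2) (Q : MvPolynomial (Fin 2) S.low.H),
      pderiv i (map inc Q) = map inc (pderiv i Q) := fun i Q => pderiv_map
  have hz1a : aeval b (C ⟨z₁, hz₁'⟩ : MvPolynomial (Fin 2) A') = z₁ := by
    rw [aeval_C]; rfl
  have hjd : aeval b (jdet F) = -(Polynomial.aeval θ (Polynomial.derivative P)) *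
      ((δ z₁L : L) : Ω) * Polynomial.aeval θ g := by
    have m0 : ∀ i, aeval b (pderiv i (F 0)) = aeval b (pderiv i QP) := fun i => by
      rw [hF0, hpd, hmap]
    have m1 : ∀ i, aeval b (pderiv i (F 1)) =
        aeval b (pderiv i Qa) - z₁ * aeval b (pderiv i Qg) := fun i => by
      rw [hF1, map_sub, Derivation.leibniz, pderiv_C, smul_zero, add_zero, hpd, hpd, map_sub,
        smul_eq_mul, map_mul, hmap, hmap, hz1a]
    unfold jdet
    rw [Matrix.det_fin_two, Matrix.of_apply, Matrix.of_apply, Matrix.of_apply, Matrix.of_apply,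
      map_sub, map_mul, map_mul, m0, m1, m1, m0]
    rw [← (hQP θ).2, ← (hQg θ).1]
    have r1' : (0 : Ω) = aeval b (pderiv 0 QP) + aeval b (pderiv 1 QP) * (t : Ω) := r1
    linear_combination (aeval b (pderiv 1 Qa) - z₁ * aeval b (pderiv 1 Qg)) * (- r1') +
      aeval b (pderiv 1 QP) * r2
  refine jac_mem (le_hz v A') (hz_hcl v A') F b hA'0 ?_ ?_ ?_ ?_ 0
  · intro i
    fin_cases i
    · exact S.nonneg h _ hzH
    · exact h2
  · intro i
    fin_cases i
    · change aeval b (F 0) = 0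
      rw [hF0, hmap]; exact eP
    · change aeval b (F 1) = 0
      rw [hF1, map_sub, map_mul, hmap, hmap, hz1a, (hQa θ).1, (hQg θ).1, sub_eq_zero]
      exact h7.symm
  · rw [hjd]
    exact mul_ne_zero (mul_ne_zero (neg_ne_zero.2 h3) hD0) h5
  · rw [hjd, v.map_mul (mul_ne_zero (neg_ne_zero.2 h3) hD0) h5, v.map_mul (neg_ne_zero.2 h3) hD0,
      v.map_neg _ h3, h4, hD1, h6]
    ring

end Main

end Pool.Agent.ALLY22
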