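import Pool.Agent.Lib.ALLY_h22.Et

/-!
# Solutions of systems of equations with invertible Jacobian
-/

set_option autoImplicit false

open MvPolynomial

namespace Pool.Agent.ALLY22

open Pool.Agent.TAO

universe u w

variable {k Ω : Type u} [Field k] [Field Ω] [Algebra k Ω] {𝕂 : Type w} [Field 𝕂] [LinearOrder 𝕂]
  [IsStrictOrderedRing 𝕂] {v : OVal 𝕂 Ω}

/-- The Jacobian determinant. -/
noncomputable def jdet {A : Type u} [CommRing A] {m : ℕ} (P : Fin m → MvPolynomial (Fin m) A) :
    MvPolynomial (Fin m) A :=
  (Matrix.of fun i j : Fin m => pderiv i (P j)).det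

/-- The localisation of a quotient of a polynomial ring at the Jacobian is etale. -/
theorem etale_jac {A : Type u} [CommRing A] {m : ℕ} (P : Fin m → MvPolynomial (Fin m) A) :
    Algebra.Etale A (Localization.Away
      (Ideal.Quotient.mk (Ideal.span (Set.range P)) (jdet P))) := by
  classical
  let pre := Algebra.PreSubmersivePresentation.naive (v := P) (id : Fin m → Fin m)
    Function.injective_id
  have hj : pre.jacobian = Ideal.Quotient.mk (Ideal.span (Set.range P)) (jdet P) := by
    rw [Algebra.PreSubmersivePresentation.jacobian_eq_jacobiMatrix_det]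
    have h1 : pre.jacobiMatrix = Matrix.of fun i j => pderiv i (P j) := by
      ext1 i j
      rw [Algebra.PreSubmersivePresentation.jacobiMatrix_naive]
      rfl
    rw [h1]
    rfl
  rw [← hj]
  let loc := Algebra.PreSubmersivePresentation.localizationAway
    (Localization.Away pre.jacobian) pre.jacobian
  let sub : Algebra.SubmersivePresentation A (Localization.Away pre.jacobian)
      (Unit ⊕ Fin m) (Unit ⊕ Fin m) :=
    { toPreSubmersivePresentation := loc.comp pre
      jacobian_isUnit := by
        rw [Algebra.PreSubmersivePresentation.comp_jacobian_eq_jacobian_smul_jacobian,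
          Algebra.PreSubmersivePresentation.localizationAway_jacobian, Algebra.smul_def]
        have hu := IsLocalization.Away.algebraMap_isUnit
          (S := Localization.Away pre.jacobian) pre.jacobian
        exact hu.mul hu }
  have hsm : Algebra.IsStandardSmoothOfRelativeDimension 0 A (Localization.Away pre.jacobian) := by
    refine sub.isStandardSmoothOfRelativeDimension ?_
    unfold Algebra.Presentation.dimension
    exact Nat.sub_self _
  infer_instance

/-- A solution, in the valuation ring, of a system with invertible Jacobian, lies in the image of an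
etale algebra. -/
theorem exists_et_of_jac {A : Subalgebra k Ω} {m : ℕ}
    (P : Fin m → MvPolynomial (Fin m) A) (a : Fin m → Ω) (hA : ∀ f ∈ A, v.Ge 0 f)
    (ha : ∀ i, v.Ge 0 (a i)) (hP : ∀ i, aeval a (P i) = 0)
    (hJ : aeval a (jdet P) ≠ 0) (hJ' : v (aeval a (jdet P)) = 0) :
    ∃ (B : Type u) (_ : CommRing B) (_ : Algebra A B) (_ : Algebra.Etale A B) (φ : B →ₐ[A] Ω),
      (∀ b, v.Ge 0 (φ b)) ∧ ∀ i, a i ∈ φ.range := by
  classical
  set I := Ideal.span (Set.range P) with hI
  have hker : ∀ f ∈ I, aeval a f = 0 := by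
    intro f hf
    have h1 : I ≤ RingHom.ker (aeval a : MvPolynomial (Fin m) A →ₐ[A] Ω) := by
      rw [hI, Ideal.span_le]
      rintro _ ⟨i, rfl⟩
      exact hP i
    exact h1 hf
  let φ₀ : (MvPolynomial (Fin m) A ⧸ I) →ₐ[A] Ω :=
    Ideal.Quotient.liftₐ I (aeval a : MvPolynomial (Fin m) A →ₐ[A] Ω) hker
  have hφ₀ : ∀ f, φ₀ (Ideal.Quotient.mk I f) = aeval a f := fun f => rfl
  have hpol : ∀ f : MvPolynomial (Fin m) A, v.Ge 0 (aeval a f) := by
    intro f
    induction f using MvPolynomial.induction_on with
    | C c =>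
      rw [aeval_C]
      exact hA _ c.2
    | add f g hf hg =>
      rw [map_add]
      exact hf.add hg
    | mul_X f i hf =>
      rw [map_mul, aeval_X]
      have := OVal.Ge.mul hf (ha i)
      rwa [add_zero] at this
  have hφ₀v : ∀ b, v.Ge 0 (φ₀ b) := by
    intro b
    obtain ⟨f, rfl⟩ := Ideal.Quotient.mk_surjective b
    rw [hφ₀]
    exact hpol f
  have hdet : φ₀ (Ideal.Quotient.mk I (jdet P)) = aeval a (jdet P) := hφ₀ _
  obtain ⟨ψ, hψ1, hψ2⟩ := exists_away (v := v) φ₀ hφ₀v
    (f := Ideal.Quotient.mk I (jdet P)) (by rw [hdet]; exact hJ) (by rw [hdet]; exact hJ')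
  have hi : ∀ i : Fin m, φ₀ (Ideal.Quotient.mk I (X i)) = a i := fun i => by
    rw [hφ₀, aeval_X]
  exact ⟨_, inferInstance, inferInstance, etale_jac P, ψ, hψ2,
    fun i => ⟨_, (hψ1 (Ideal.Quotient.mk I (X i))).trans (hi i)⟩⟩

end Pool.Agent.ALLY22
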