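import Pool.Agent.Lib.ALLY_h22.Jac

/-!
# The elements of the Hensel closure lie in images of etale algebras
-/

set_option autoImplicit false

open Polynomial
open scoped TensorProduct

namespace Pool.Agent.ALLY22

open Pool.Agent.TAO
open Pool.Agent.ALLY

universe u w

variable {k Ω : Type u} [Field k] [Field Ω] [Algebra k Ω] {𝕂 : Type w} [Field 𝕂] [LinearOrder 𝕂]
  [IsStrictOrderedRing 𝕂] {v : OVal 𝕂 Ω}

/-- All the elements of `s` lie in the image of one etale `A`-algebra with values `≥ 0`. -/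
def EtS (v : OVal 𝕂 Ω) (A : Subalgebra k Ω) (s : Set Ω) : Prop :=
  ∃ (B : Type u) (_ : CommRing B) (_ : Algebra A B) (_ : Algebra.Etale A B) (φ : B →ₐ[A] Ω),
    (∀ b, v.Ge 0 (φ b)) ∧ ∀ f ∈ s, f ∈ φ.range

theorem EtS.union {A : Subalgebra k Ω} {s t : Set Ω} (hs : EtS v A s) (ht : EtS v A t) :
    EtS v A (s ∪ t) := by
  obtain ⟨B, _, _, _, φ, h1, h2⟩ := hs
  obtain ⟨C, _, _, _, ψ, h3, h4⟩ := ht
  refine ⟨B ⊗[A] C, inferInstance, inferInstance, Algebra.Etale.comp A B (B ⊗[A] C),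
    Algebra.TensorProduct.productMap φ ψ, ?_, ?_⟩
  · intro b
    induction b using TensorProduct.induction_on with
    | zero => rw [map_zero]; exact OVal.Ge.zero
    | tmul x y =>
      rw [Algebra.TensorProduct.productMap_apply_tmul]
      have := OVal.Ge.mul (h1 x) (h3 y)
      rwa [add_zero] at this
    | add x y hx hy =>
      rw [map_add]
      exact hx.add hy
  · rintro f (hf | hf)
    · obtain ⟨b, hb⟩ := h2 f hf
      refine ⟨b ⊗ₜ 1, ?_⟩
      change Algebra.TensorProduct.productMap φ ψ _ = f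
      rw [Algebra.TensorProduct.productMap_apply_tmul, map_one, mul_one]
      exact hb
    · obtain ⟨c, hc⟩ := h4 f hf
      refine ⟨1 ⊗ₜ c, ?_⟩
      change Algebra.TensorProduct.productMap φ ψ _ = f
      rw [Algebra.TensorProduct.productMap_apply_tmul, map_one, one_mul]
      exact hc

theorem EtS.mono {A : Subalgebra k Ω} {s t : Set Ω} (hs : EtS v A s) (h : t ⊆ s) : EtS v A t := by
  obtain ⟨B, i1, i2, i3, φ, h1, h2⟩ := hs
  exact ⟨B, i1, i2, i3, φ, h1, fun f hf => h2 f (h hf)⟩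

theorem EtS.base {A : Subalgebra k Ω} (hA : ∀ f ∈ A, v.Ge 0 f) {s : Set Ω} (hs : s ⊆ A) :
    EtS v A s :=
  ⟨A, inferInstance, inferInstance, inferInstance, Algebra.ofId A Ω, fun b => hA _ b.2,
    fun f hf => ⟨⟨f, hs hf⟩, rfl⟩⟩

/-- The elements which lie in images of etale algebras. -/
def EtI (v : OVal 𝕂 Ω) (A : Subalgebra k Ω) (hA : ∀ f ∈ A, v.Ge 0 f) : Subalgebra k Ω where
  carrier := {f | EtS v A {f}}
  mul_mem' := by
    intro a b ha hb
    obtain ⟨B, i1, i2, i3, φ, h1, h2⟩ := EtS.union ha hb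
    obtain ⟨x, hx⟩ := h2 a (Or.inl rfl)
    obtain ⟨y, hy⟩ := h2 b (Or.inr rfl)
    refine ⟨B, i1, i2, i3, φ, h1, ?_⟩
    rintro _ rfl
    exact ⟨x * y, by rw [map_mul]; exact congrArg₂ _ hx hy⟩
  add_mem' := by
    intro a b ha hb
    obtain ⟨B, i1, i2, i3, φ, h1, h2⟩ := EtS.union ha hb
    obtain ⟨x, hx⟩ := h2 a (Or.inl rfl)
    obtain ⟨y, hy⟩ := h2 b (Or.inr rfl)
    refine ⟨B, i1, i2, i3, φ, h1, ?_⟩
    rintro _ rfl
    exact ⟨x + y, by rw [map_add]; exact congrArg₂ _ hx hy⟩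
  algebraMap_mem' := fun c => EtS.base hA (by
    rintro _ rfl
    exact A.algebraMap_mem c)

theorem mem_EtI {A : Subalgebra k Ω} {hA : ∀ f ∈ A, v.Ge 0 f} {f : Ω} :
    f ∈ EtI v A hA ↔ EtS v A {f} := Iff.rfl

theorem EtS.of_finset {A : Subalgebra k Ω} (hA : ∀ f ∈ A, v.Ge 0 f) (s : Finset Ω)
    (hs : ∀ f ∈ s, f ∈ EtI v A hA) : EtS v A (s : Set Ω) := by
  classical
  induction s using Finset.induction_on with
  | empty => exact EtS.base hA (by simp)
  | insert a s _ ih =>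
    have h1 := EtS.union (mem_EtI.1 (hs a (Finset.mem_insert_self a s)))
      (ih fun f hf => hs f (Finset.mem_insert_of_mem hf))
    refine h1.mono ?_
    rw [Finset.coe_insert]
    rintro f (hf | hf)
    · exact Or.inl hf
    · exact Or.inr hf

theorem EtI_of_tower {A : Subalgebra k Ω} {hA : ∀ f ∈ A, v.Ge 0 f} {B C : Type u} [CommRing B]
    [CommRing C] [Algebra A B] [Algebra.Etale A B] [Algebra B C] [Algebra.Etale B C]
    (φ : B →ₐ[A] Ω) (ψ : C →+* Ω) (h : ∀ b, ψ (algebraMap B C b) = φ b)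
    (hψ : ∀ c, v.Ge 0 (ψ c)) (c : C) : ψ c ∈ EtI v A hA := by
  let : Algebra A C := ((algebraMap B C).comp (algebraMap A B)).toAlgebra
  have : IsScalarTower A B C := IsScalarTower.of_algebraMap_eq fun _ => rfl
  have : Algebra.Etale A C := Algebra.Etale.comp A B C
  let ψ' : C →ₐ[A] Ω :=
    { toRingHom := ψ
      commutes' := fun r => by
        change ψ (algebraMap B C (algebraMap A B r)) = _
        rw [h]
        exact φ.commutes r }
  refine mem_EtI.2 ⟨C, inferInstance, inferInstance, inferInstance, ψ', hψ, ?_⟩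
  rintro _ rfl
  exact ⟨c, rfl⟩

theorem ring_val {B : Type u} [CommRing B] (pr : StandardEtalePair B) (ψ : pr.Ring →+* Ω)
    (hB : ∀ b, v.Ge 0 (ψ (algebraMap B pr.Ring b))) (hX : v.Ge 0 (ψ pr.X))
    (hg : ψ (aeval pr.X pr.g) ≠ 0) (hg' : v (ψ (aeval pr.X pr.g)) = 0) (x : pr.Ring) :
    v.Ge 0 (ψ x) := by
  have hpol : ∀ q : Polynomial B, v.Ge 0 (ψ (aeval pr.X q)) := by
    intro q
    induction q using Polynomial.induction_on' with
    | add p q hp hq => rw [map_add, map_add]; exact hp.add hq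
    | monomial n c =>
      rw [aeval_monomial, map_mul, map_pow]
      have h3 : v.Ge 0 (ψ pr.X ^ n) := by
        intro h4
        by_cases hn : n = 0
        · subst hn; rw [pow_zero, v.map_one]
        · have ha0 : ψ pr.X ≠ 0 := by
            intro h5
            rw [h5] at h4
            exact h4 (zero_pow hn)
          rw [v.map_pow ha0]
          have := hX ha0
          positivity
      have := OVal.Ge.mul (hB c) h3
      rwa [add_zero] at this
  obtain ⟨p, n, hpn⟩ : ∃ p : Polynomial B, ∃ n, x * (aeval pr.X pr.g) ^ n = aeval pr.X p := by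
    have hbij : Function.Bijective (pr.lift pr.X pr.hasMap_X) := by
      rw [pr.lift_X_left]
      exact Function.bijective_id
    exact StandardEtalePresentation.exists_mul_aeval_x_g_pow_eq_aeval_x
      ⟨pr, pr.X, pr.hasMap_X, hbij⟩ x
  have h3 := congrArg ψ hpn
  rw [map_mul, map_pow] at h3
  have h6 : ψ x = ψ (aeval pr.X p) * ((ψ (aeval pr.X pr.g)) ^ n)⁻¹ := by
    rw [← h3, mul_assoc, mul_inv_cancel₀ (pow_ne_zero n hg), mul_one]
  rw [h6]
  have h7 : v.Ge 0 ((ψ (aeval pr.X pr.g)) ^ n)⁻¹ := by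
    intro _
    rw [v.map_inv (pow_ne_zero n hg), v.map_pow hg, hg', mul_zero, neg_zero]
  have := OVal.Ge.mul (hpol p) h7
  rwa [add_zero] at this

theorem EtI_root {A : Subalgebra k Ω} {hA : ∀ f ∈ A, v.Ge 0 f} {B : Type u} [CommRing B]
    [Algebra A B] [Algebra.Etale A B] (φ : B →ₐ[A] Ω) (hφ : ∀ b, v.Ge 0 (φ b))
    (P : Polynomial B) (hP : P.Monic) (a : Ω) (ha : v.Ge 0 a)
    (h0 : P.eval₂ (φ : B →+* Ω) a = 0) (h1 : (derivative P).eval₂ (φ : B →+* Ω) a ≠ 0)
    (h2 : v ((derivative P).eval₂ (φ : B →+* Ω) a) = 0) : a ∈ EtI v A hA := by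
  let pr : StandardEtalePair B :=
    { f := P
      monic_f := hP
      g := derivative P
      cond := ⟨1, 0, 1, by ring⟩ }
  obtain ⟨ψ, hψ1, hψ2, hψ3⟩ : ∃ ψ : pr.Ring →+* Ω, ψ pr.X = a ∧
      (∀ b, ψ (algebraMap B pr.Ring b) = φ b) ∧
      ψ (aeval pr.X pr.g) = (derivative P).eval₂ (φ : B →+* Ω) a := by
    let : Algebra B Ω := (φ : B →+* Ω).toAlgebra
    have hmap : pr.HasMap a := by
      refine ⟨?_, ?_⟩
      · rw [aeval_def]; exact h0
      · rw [isUnit_iff_ne_zero, aeval_def]; exact h1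
    have hX : pr.lift a hmap pr.X = a := pr.lift_X a hmap
    refine ⟨(pr.lift a hmap : pr.Ring →+* Ω), hX, fun b => (pr.lift a hmap).commutes b, ?_⟩
    change pr.lift a hmap (aeval pr.X pr.g) = _
    rw [← aeval_algHom_apply, hX]
    rfl
  have hval : ∀ x, v.Ge 0 (ψ x) := by
    refine ring_val pr ψ (fun b => ?_) ?_ ?_ ?_
    · rw [hψ2]; exact hφ b
    · rw [hψ1]; exact ha
    · rw [hψ3]; exact h1
    · rw [hψ3]; exact h2
  have := EtI_of_tower (hA := hA) φ ψ hψ2 hval pr.X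
  rwa [hψ1] at this

theorem hcl_EtI {A : Subalgebra k Ω} (hA : ∀ f ∈ A, v.Ge 0 f) : HCl v (EtI v A hA) where
  inv := by
    intro a ha h0 h1
    obtain ⟨B, i1, i2, i3, φ, h2, h3⟩ := ha
    obtain ⟨b, hb⟩ := h3 a rfl
    have hb' : φ b = a := hb
    obtain ⟨ψ, h4, h5⟩ := exists_away (v := v) φ h2 (f := b) (by rw [hb']; exact h0)
      (by rw [hb']; exact h1)
    have h7 := EtI_of_tower (hA := hA) φ (ψ : Localization.Away b →+* Ω) h4 h5
      (IsLocalization.Away.invSelf b)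
    have h6 := congrArg ψ (IsLocalization.Away.mul_invSelf (S := Localization.Away b) b)
    rw [map_mul, map_one, h4, hb'] at h6
    rw [← eq_inv_of_mul_eq_one_right h6]
    exact h7
  root := by
    intro P hP hc a ha h0 h1 h2
    classical
    have h3 : EtS v A (P.coeffs : Set Ω) := EtS.of_finset hA _ (by
      intro f hf
      obtain ⟨i, _, rfl⟩ := Polynomial.mem_coeffs_iff.1 hf
      exact hc i)
    obtain ⟨B, i1, i2, i3, φ, h4, h5⟩ := h3
    have h6 : P ∈ Polynomial.lifts (φ : B →+* Ω) := by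
      rw [Polynomial.lifts_iff_coeff_lifts]
      intro i
      by_cases hi : P.coeff i = 0
      · exact ⟨0, by rw [hi, map_zero]⟩
      · obtain ⟨b, hb⟩ := h5 (P.coeff i) (Polynomial.coeff_mem_coeffs hi)
        exact ⟨b, hb⟩
    obtain ⟨Q, hQ1, -, hQ2⟩ := Polynomial.lifts_and_natDegree_eq_and_monic h6 hP
    refine EtI_root φ h4 Q hQ2 a ha ?_ ?_ ?_
    · rw [← eval_map, hQ1]; exact h0
    · rw [← eval_map, ← derivative_map, hQ1]; exact h1
    · rw [← eval_map, ← derivative_map, hQ1]; exact h2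

/-- Finitely many elements of the Hensel closure lie in the image of one etale algebra. -/
theorem etS_of_hz {A : Subalgebra k Ω} (hA : ∀ f ∈ A, v.Ge 0 f) (s : Finset Ω)
    (hs : ∀ f ∈ s, f ∈ Hz v A) : EtS v A (s : Set Ω) :=
  EtS.of_finset hA s fun f hf => hz_le (B := EtI v A hA)
    (fun f hf => EtS.base hA (by rintro _ rfl; exact hf)) (hcl_EtI hA) (hs f hf)

/-- The standard form of the elements of the Hensel closure. -/
theorem hz_std {A : Subalgebra k Ω} (hA : ∀ f ∈ A, v.Ge 0 f) {f : Ω} (hf : f ∈ Hz v A) :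
    ∃ (θ : Ω) (P a g : Polynomial A), P.Monic ∧ aeval θ P = 0 ∧ v.Ge 0 θ ∧
      aeval θ (derivative P) ≠ 0 ∧ v (aeval θ (derivative P)) = 0 ∧
      aeval θ g ≠ 0 ∧ v (aeval θ g) = 0 ∧ f * aeval θ g = aeval θ a := by
  obtain ⟨B, i1, i2, i3, φ, h1, h2⟩ := etS_of_hz hA {f} (by simpa using hf)
  obtain ⟨b, hb⟩ := h2 f (by simp)
  have := et_std φ h1 b
  rwa [show φ b = f from hb] at this

/-- The image of an etale algebra lies in every Hensel closed algebra. -/
theorem et_mem {A H : Subalgebra k Ω} (hAH : A ≤ H) (hH : HCl v H) {B : Type u} [CommRing B]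
    [Algebra A B] [Algebra.Etale A B] (φ : B →ₐ[A] Ω) (hφ : ∀ b, v.Ge 0 (φ b)) (b : B) :
    φ b ∈ H := by
  obtain ⟨θ, P, a, g, h1, h2, h3, h4, h5, h6, h7, h8⟩ := et_std φ hφ b
  have hco : ∀ q : Polynomial A, ∀ i, (q.map (algebraMap A Ω)).coeff i ∈ H := by
    intro q i
    rw [coeff_map]
    exact hAH (q.coeff i).2
  have hθ : θ ∈ H := by
    refine hH.root (P.map (algebraMap A Ω)) (h1.map _) (hco P) θ h3 ?_ ?_ ?_
    · rw [eval_map, ← aeval_def]; exact h2
    · rw [derivative_map, eval_map, ← aeval_def]; exact h4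
    · rw [derivative_map, eval_map, ← aeval_def]; exact h5
  have hev : ∀ q : Polynomial A, aeval θ q ∈ H := by
    intro q
    rw [aeval_eq_sum_range]
    refine sum_mem fun i _ => ?_
    rw [Algebra.smul_def]
    exact mul_mem (hAH (q.coeff i).2) (pow_mem hθ i)
  have h9 : φ b = aeval θ a * (aeval θ g)⁻¹ := by
    rw [← h8, mul_assoc, mul_inv_cancel₀ h6, mul_one]
  rw [h9]
  exact mul_mem (hev a) (hH.inv _ (hev g) h6 h7)

/-- The multidimensional Hensel lemma: a solution in the valuation ring of a system with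
coefficients in `A` and with invertible Jacobian lies in every Hensel closed `H ≥ A`. -/
theorem jac_mem {A H : Subalgebra k Ω} (hAH : A ≤ H) (hH : HCl v H) {m : ℕ}
    (P : Fin m → MvPolynomial (Fin m) A) (a : Fin m → Ω) (hA : ∀ f ∈ A, v.Ge 0 f)
    (ha : ∀ i, v.Ge 0 (a i)) (hP : ∀ i, MvPolynomial.aeval a (P i) = 0)
    (hJ : MvPolynomial.aeval a (jdet P) ≠ 0) (hJ' : v (MvPolynomial.aeval a (jdet P)) = 0)
    (i : Fin m) : a i ∈ H := by
  obtain ⟨B, i1, i2, i3, φ, h1, h2⟩ := exists_et_of_jac P a hA ha hP hJ hJ'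
  obtain ⟨b, hb⟩ := h2 i
  rw [← show φ b = a i from hb]
  exact et_mem hAH hH φ h1 b

end Pool.Agent.ALLY22
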